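import Pool.Agent.helper55.GL.Spec

set_option autoImplicit false

namespace Pool.Agent.GL

open SimpleGraph

section

variable {V W : Type} (H : SimpleGraph V) (K : SimpleGraph W) (v : V) (w : W)

theorem JPR_ll (a b : V) : (Join H K v w).Adj (Sum.inl a) (Sum.inl b) ↔ H.Adj a b := by
  unfold Join
  rw [sup_adj, edge_adj]
  constructor
  · rintro (h | ⟨h | h, -⟩)
    · simpa using h
    · exact absurd h.2 (by simp)
    · exact absurd h.1 (by simp)
  · intro h
    left
    simpa using h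

theorem JPR_rr (a b : W) : (Join H K v w).Adj (Sum.inr a) (Sum.inr b) ↔ K.Adj a b := by
  unfold Join
  rw [sup_adj, edge_adj]
  constructor
  · rintro (h | ⟨h | h, -⟩)
    · simpa using h
    · exact absurd h.1 (by simp)
    · exact absurd h.2 (by simp)
  · intro h
    left
    simpa using h

theorem JPR_lr (a : V) (b : W) : (Join H K v w).Adj (Sum.inl a) (Sum.inr b) ↔ a = v ∧ b = w := by
  unfold Join
  rw [sup_adj, edge_adj]
  constructor
  · rintro (h | ⟨h | h, -⟩)
    · exact absurd h (by simp)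
    · exact ⟨Sum.inl.inj h.1, Sum.inr.inj h.2⟩
    · exact absurd h.1 (by simp)
  · rintro ⟨rfl, rfl⟩
    right
    exact ⟨Or.inl ⟨rfl, rfl⟩, by simp⟩

theorem JPR_rl (b : W) (a : V) : (Join H K v w).Adj (Sum.inr b) (Sum.inl a) ↔ a = v ∧ b = w := by
  rw [adj_comm, JPR_lr]

end

theorem JPR_conn {V W : Type} (H : SimpleGraph V) (K : SimpleGraph W) (v : V) (w : W)
    (hH : H.Connected) (hK : K.Connected) : (Join H K v w).Connected := by
  have hl : ∀ a, (Join H K v w).Reachable (Sum.inl a) (Sum.inl v) := by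
    intro a
    exact (hH.preconnected a v).map (⟨Sum.inl, fun {a b} h => (JPR_ll H K v w a b).2 h⟩ :
      H →g Join H K v w)
  have hr : ∀ b, (Join H K v w).Reachable (Sum.inr b) (Sum.inr w) := by
    intro b
    exact (hK.preconnected b w).map (⟨Sum.inr, fun {a b} h => (JPR_rr H K v w a b).2 h⟩ :
      K →g Join H K v w)
  have hvw : (Join H K v w).Reachable (Sum.inr w) (Sum.inl v) :=
    ((JPR_rl H K v w w v).2 ⟨rfl, rfl⟩).reachable
  have key : ∀ x, (Join H K v w).Reachable x (Sum.inl v) := by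
    rintro (a | b)
    · exact hl a
    · exact (hr b).trans hvw
  have : Nonempty (V ⊕ W) := ⟨Sum.inl v⟩
  exact ⟨fun x y => (key x).trans (key y).symm⟩

theorem JPR : JPR_stmt := by
  intro V W H K v w
  refine ⟨?_, JPR_conn H K v w, ?_, ?_, fun a b h => (JPR_ll H K v w a b).2 h,
    fun a b h => (JPR_rr H K v w a b).2 h, (JPR_lr H K v w v w).2 ⟨rfl, rfl⟩,
    fun a b h => (JPR_lr H K v w a b).1 h, ?_⟩
  · intro c d hc hd hcd
    rintro (a | a) (b | b) h
    · exact hc a b ((JPR_ll H K v w a b).1 h)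
    · obtain ⟨rfl, rfl⟩ := (JPR_lr H K v w a b).1 h
      exact hcd
    · obtain ⟨rfl, rfl⟩ := (JPR_rl H K v w a b).1 h
      exact hcd.symm
    · exact hd a b ((JPR_rr H K v w a b).1 h)
  · exact ⟨⟨⟨Sum.inl, fun {a b} h => (JPR_ll H K v w a b).2 h⟩, Sum.inl_injective⟩⟩
  · exact ⟨⟨⟨Sum.inr, fun {a b} h => (JPR_rr H K v w a b).2 h⟩, Sum.inr_injective⟩⟩
  · refine ⟨⟨Equiv.sumComm V V, ?_⟩, fun a => rfl⟩
    rintro (a | a) (b | b)
    · simp only [Equiv.sumComm_apply, Sum.swap_inl, JPR_ll, JPR_rr]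
    · simp only [Equiv.sumComm_apply, Sum.swap_inl, Sum.swap_inr, JPR_lr, JPR_rl]
      exact and_comm
    · simp only [Equiv.sumComm_apply, Sum.swap_inl, Sum.swap_inr, JPR_lr, JPR_rl]
      exact and_comm
    · simp only [Equiv.sumComm_apply, Sum.swap_inr, JPR_ll, JPR_rr]

end Pool.Agent.GL
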